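import Pool.Agent.H27.LV.Targets3

/-!
# MP_70ba79_ag: target CHB2, the minors for different complements (helper4)
-/

set_option autoImplicit false

namespace Pool.Agent.H4.LW

open MvPolynomial SC Pool.Agent.H27.LV

theorem tCHB2 (hUL : T_UL2) (hHOM : T_HOM2) (hLAL : T_LAL) : T_CHB2 := by
  classical
  intro k K _ _ _ n d e ι R _ _ _ a φ D c e0 κ τ τ' hφ hval h0
  obtain ⟨hadd, hsm, -⟩ := hHOM k K n d e ι a φ D c hφ
  let u : MvPolynomial (Fin (n + 1)) K →+ MvPolynomial (Fin (n + 1)) K :=
    AddMonoidHom.mk' (fun g => vv D c a φ g) hadd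
  have hu : ∀ g, u g = vv D c a φ g := fun g => rfl
  let U : Matrix R (Mon (n + 1) d ⊕ R) K :=
    Matrix.of fun p x => (vv D c a φ (mono K (e0 x).1)).coeff (fs (κ p).1)
  -- general principle
  have key : ∀ (g : MvPolynomial (Fin (n + 1)) K), g.IsHomogeneous (d + e) →
      ∀ p, ∑ x, U p x * g.coeff (fs (e0 x).1) = (vv D c a φ g).coeff (fs (κ p).1) := by
    intro g hg p
    have h1 : vv D c a φ g =
        ∑ q : Mon (n + 1) (d + e), C (g.coeff (fs q.1)) * vv D c a φ (mono K q.1) := by
      rw [← hu]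
      conv_lhs => rw [dec hg]
      rw [map_sum]
      exact Finset.sum_congr rfl fun q _ => by rw [hu, hsm]
    rw [h1, coeff_sum, ← e0.sum_comp]
    refine Finset.sum_congr rfl fun x _ => ?_
    rw [coeff_C_mul]
    simp only [U, Matrix.of_apply]
    rw [mul_comm]
  let α : Matrix (Mon (n + 1) d ⊕ R) (Mon (n + 1) d) K :=
    Matrix.of fun p p' => (frm c * mono K p'.1).coeff (fs (e0 p).1)
  let B : (R → Mon (n + 1) (d + e)) → Matrix (Mon (n + 1) d ⊕ R) R K := fun t =>
    Matrix.of fun p r => if e0 p = t r then 1 else 0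
  have hUα : U * α = 0 := by
    ext p p'
    rw [Matrix.mul_apply]
    have h1 := key (frm c * mono K p'.1) (by
      have h2 : d + e = e + d := add_comm _ _
      exact h2 ▸ (frm_homog c).mul (isHomogeneous_mono (K := K) p')) p
    simp only [α, Matrix.of_apply]
    rw [h1, hUL k K n d e ι a φ D c hφ hval _ (isHomogeneous_mono p')]
    simp
  have hUB : ∀ t : R → Mon (n + 1) (d + e), U * B t = Matrix.of fun p q : R =>
      (vv D c a φ (mono K (t q).1)).coeff (fs (κ p).1) := by
    intro t
    ext p q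
    rw [Matrix.mul_apply]
    have h1 := key _ (isHomogeneous_mono (K := K) (t q)) p
    simp only [Matrix.of_apply]
    rw [← h1]
    refine Finset.sum_congr rfl fun x _ => ?_
    congr 1
    rw [coeff_mono]
    simp only [B, Matrix.of_apply]
    by_cases hx : e0 x = t q
    · rw [if_pos hx, if_pos (by rw [hx])]
    · rw [if_neg hx, if_neg (fun h => hx (Subtype.ext h.symm))]
  have hfc : ∀ t, Matrix.fromCols α (B t) = (aug d c t).submatrix e0 id := by
    intro t
    ext p x
    rcases x with x | q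
    · rfl
    · rfl
  rw [← hfc τ] at h0
  have hmain := hLAL K (Mon (n + 1) d) R U α (B τ) (B τ') hUα h0
  rw [hUB τ, hUB τ', hfc τ, hfc τ'] at hmain
  exact hmain

end Pool.Agent.H4.LW
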