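import Pool.Agent.H27.LV.Targets3

/-!
# MP_70ba79_ag: targets HOM2 and USC2 (helper4)
-/

set_option autoImplicit false

namespace Pool.Agent.H4.LW

open MvPolynomial SC Pool.Agent.H27.LV

theorem tHOM2 : T_HOM2 := by
  intro k K _ _ _ n d e ι _ a φ D c hφ
  refine ⟨fun g h => ?_, fun s g => ?_, fun g hg => ?_⟩
  · unfold vv
    have h1 : ∀ i, C (eval (evk K (a i)) (g + h) * (D (val (a i) c) / val (a i) c)) *
        MvPolynomial.map (algebraMap k K) (φ i) =
        C (eval (evk K (a i)) g * (D (val (a i) c) / val (a i) c)) *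
          MvPolynomial.map (algebraMap k K) (φ i) +
        C (eval (evk K (a i)) h * (D (val (a i) c) / val (a i) c)) *
          MvPolynomial.map (algebraMap k K) (φ i) := by
      intro i
      rw [map_add, add_mul, C_add, add_mul]
    simp only [h1, Finset.sum_add_distrib]
    ring
  · unfold vv
    have h1 : ∀ i, C (eval (evk K (a i)) (C s * g) * (D (val (a i) c) / val (a i) c)) *
        MvPolynomial.map (algebraMap k K) (φ i) =
        C s * (C (eval (evk K (a i)) g * (D (val (a i) c) / val (a i) c)) *
          MvPolynomial.map (algebraMap k K) (φ i)) := by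
      intro i
      have h0 : eval (evk K (a i)) (C s * g) = s * eval (evk K (a i)) g := by
        rw [map_mul, eval_C]
      rw [h0, mul_assoc, C_mul, mul_assoc]
    simp only [h1, ← Finset.mul_sum]
    ring
  · unfold vv
    have h1 : (g * frm fun β => D (c β)).IsHomogeneous (d + e + e) :=
      hg.mul (frm_homog _)
    have h2 : (frm c * ∑ i, C (eval (evk K (a i)) g * (D (val (a i) c) / val (a i) c)) *
        MvPolynomial.map (algebraMap k K) (φ i)).IsHomogeneous (e + (d + e)) := by
      refine (frm_homog _).mul (IsHomogeneous.sum _ _ _ fun i _ => ?_)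
      have := (isHomogeneous_C (Fin (n + 1)) (eval (evk K (a i)) g *
        (D (val (a i) c) / val (a i) c))).mul ((hφ.homog i).map (algebraMap k K))
      simpa using this
    rw [show e + (d + e) = d + e + e by ring] at h2
    exact h1.sub h2

theorem tUSC2 (hDK : T_DK) (hVAL : T_VAL) : T_USC2 := by
  intro k K _ _ _ n d e ι _ a φ D c s hφ hl hs g hg
  have h1 := hDK k K n (d + e) ι a φ hφ g hg
  unfold vv
  have h2 : frm (fun β => D (s * c β)) = C (D s) * frm c + C s * frm (fun β => D (c β)) := by
    unfold frm
    rw [Finset.mul_sum, Finset.mul_sum, ← Finset.sum_add_distrib]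
    refine Finset.sum_congr rfl fun β _ => ?_
    beta_reduce
    rw [D.leibniz, smul_eq_mul, smul_eq_mul, C_add, C_mul, C_mul]
    ring
  have h3 : ∀ i, D (val (a i) fun β => s * c β) / (val (a i) fun β => s * c β) =
      D s / s + D (val (a i) c) / val (a i) c := by
    intro i
    have := hl i
    rw [(hVAL k K n e (a i) c D s).2.2.1, D.leibniz, smul_eq_mul, smul_eq_mul]
    field_simp
    ring
  have h4 : ∑ i, C (eval (evk K (a i)) g * (D (val (a i) fun β => s * c β) /
      (val (a i) fun β => s * c β))) * MvPolynomial.map (algebraMap k K) (φ i) =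
      C (D s / s) * g + ∑ i, C (eval (evk K (a i)) g * (D (val (a i) c) / val (a i) c)) *
        MvPolynomial.map (algebraMap k K) (φ i) := by
    conv_rhs => rw [h1]
    rw [Finset.mul_sum]
    simp only [← h1]
    rw [← Finset.sum_add_distrib]
    refine Finset.sum_congr rfl fun i _ => ?_
    rw [h3, mul_add, C_add, add_mul]
    simp only [C_mul]
    ring
  have h6 : frm (fun β => s * c β) = C s * frm c := by
    unfold frm
    rw [Finset.mul_sum]
    exact Finset.sum_congr rfl fun β _ => by rw [C_mul, mul_assoc]
  rw [h2, h4, h6]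
  have h5 : C s * C (D s / s) = (C (D s) : MvPolynomial (Fin (n + 1)) K) := by
    rw [← C_mul, mul_div_cancel₀ _ hs]
  linear_combination (-(frm c) * g) * h5

end Pool.Agent.H4.LW
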