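import Pool.Agent.H27.LV.Targets3

/-!
# MP_70ba79_ag: target VAL (helper4)
-/

set_option autoImplicit false

namespace Pool.Agent.H4.LW

open MvPolynomial SC Pool.Agent.H27.LV

theorem tVAL : T_VAL := by
  intro k K _ _ _ n e a c D s
  refine ⟨?_, ?_, ?_, ?_⟩
  · unfold val frm
    rw [map_sum]
    refine Finset.sum_congr rfl fun β _ => ?_
    rw [map_mul, eval_C, eval_evk_mono, eval_mono, mul_comm]
    rfl
  · unfold val
    rw [map_sum]
    refine Finset.sum_congr rfl fun β _ => ?_
    rw [D.leibniz]
    simp
  · unfold val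
    rw [Finset.mul_sum]
    exact Finset.sum_congr rfl fun β _ => by ring
  · unfold frm
    rw [Finset.mul_sum]
    exact Finset.sum_congr rfl fun β _ => by rw [C_mul, mul_assoc]

end Pool.Agent.H4.LW
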